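import Pool.Agent.Y343.SE.Sub

/-!
# Groups acting on trees with a vertex stabiliser of subexponential growth
-/

set_option autoImplicit false

namespace Pool.Agent.Y343.SE

open Pool.Agent.Results.MP_7da865_gt.NoRegularMap

universe u v

/-- The Cayley graph of the group `G` with respect to the set `S`: `g`, `h` are adjacent iff
`g ≠ h` and `g⁻¹ h` or `h⁻¹ g` lies in `S`. -/
def Cay {G : Type u} [Group G] (S : Set G) : SimpleGraph G where
  Adj g h := g ≠ h ∧ (g⁻¹ * h ∈ S ∨ h⁻¹ * g ∈ S)
  symm := ⟨fun _ _ h => ⟨h.1.symm, h.2.symm⟩⟩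
  loopless := ⟨fun _ h => h.1 rfl⟩

variable {G : Type u} [Group G] {S : Set G}

lemma Cay.adj_mul {g h : G} (k : G) (hgh : (Cay S).Adj g h) : (Cay S).Adj (k * g) (k * h) := by
  refine ⟨fun e => hgh.1 (mul_left_cancel e), ?_⟩
  have e1 : (k * g)⁻¹ * (k * h) = g⁻¹ * h := by group
  have e2 : (k * h)⁻¹ * (k * g) = h⁻¹ * g := by group
  rw [e1, e2]
  exact hgh.2

/-- left translation as a graph homomorphism -/
def Cay.tr (k : G) : Cay S →g Cay S := ⟨fun g => k * g, fun h => Cay.adj_mul k h⟩

lemma Cay.connected (hS : Subgroup.closure S = ⊤) : (Cay S).Connected := by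
  have h1 : ∀ g : G, (Cay S).Reachable 1 g := by
    intro g
    have hg : g ∈ Subgroup.closure S := by rw [hS]; trivial
    induction hg using Subgroup.closure_induction with
    | mem x hx =>
      by_cases h : x = 1
      · rw [h]
      · exact SimpleGraph.Adj.reachable ⟨fun e => h e.symm, Or.inl (by simpa using hx)⟩
    | one => exact SimpleGraph.Reachable.refl _
    | mul x y _ _ hx hy =>
      have h2 := hy.map (Cay.tr x)
      have h3 : (Cay S).Reachable x (x * y) := by
        have h4 : (Cay S).Reachable (x * 1) (x * y) := h2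
        rwa [mul_one] at h4
      exact hx.trans h3
    | inv x _ hx =>
      have h2 := hx.map (Cay.tr x⁻¹)
      have h3 : (Cay S).Reachable (x⁻¹ * 1) (x⁻¹ * x) := h2
      rw [mul_one, inv_mul_cancel] at h3
      exact h3.symm
  have : Nonempty G := ⟨1⟩
  exact ⟨fun g h => (h1 g).symm.trans (h1 h)⟩

lemma Cay.bounded (hSf : S.Finite) : BoundedDegree (Cay S) := by
  classical
  refine ⟨2 * hSf.toFinset.card, fun g => ?_⟩
  have hsub : (Cay S).neighborSet g ⊆
      ((hSf.toFinset.image (fun s => g * s)) ∪ (hSf.toFinset.image (fun s => g * s⁻¹)) :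
        Finset G) := by
    rintro h ⟨_, h1 | h1⟩
    · rw [Finset.coe_union]
      left
      rw [Finset.mem_coe, Finset.mem_image]
      exact ⟨g⁻¹ * h, hSf.mem_toFinset.mpr h1, by group⟩
    · rw [Finset.coe_union]
      right
      rw [Finset.mem_coe, Finset.mem_image]
      exact ⟨h⁻¹ * g, hSf.mem_toFinset.mpr h1, by group⟩
  refine (Set.encard_le_encard hsub).trans ?_
  rw [Set.encard_coe_eq_coe_finsetCard]
  have h1 := Finset.card_union_le (hSf.toFinset.image (fun s => g * s))
    (hSf.toFinset.image (fun s => g * s⁻¹))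
  have h2 := Finset.card_image_le (s := hSf.toFinset) (f := fun s => g * s)
  have h3 := Finset.card_image_le (s := hSf.toFinset) (f := fun s => g * s⁻¹)
  exact_mod_cast (by omega : _ ≤ 2 * hSf.toFinset.card)

lemma Cay.dist_mul_le (hS : Subgroup.closure S = ⊤) (k g h : G) :
    (Cay S).dist (k * g) (k * h) ≤ (Cay S).dist g h := by
  obtain ⟨p, hp⟩ := (Cay.connected hS).exists_walk_length_eq_dist g h
  rw [← hp, ← SimpleGraph.Walk.length_map (Cay.tr k) p]
  exact SimpleGraph.dist_le _

/-- The orbit map of an action on a connected graph is subexponential if some (hence every) point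
stabiliser has subexponential growth in the word metric. -/
theorem orbit_map {W : Type v} [MulAction G W] (T : SimpleGraph W) (hSf : S.Finite)
    (hS : Subgroup.closure S = ⊤) (hTc : T.Connected)
    (hact : ∀ (g : G) (a b : W), T.Adj a b → T.Adj (g • a) (g • b)) (p : W)
    (hgrow : ∀ ε : ℝ, 0 < ε → ∃ C : ℝ, ∀ r : ℕ,
      ({g | g • p = p ∧ (Cay S).dist 1 g ≤ r}.ncard : ℝ) ≤ C * Real.exp (ε * r)) :
    IsSubexpMap (Cay S).dist T.dist (fun g => g • p) := by
  classical
  have hc := Cay.connected hS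
  obtain ⟨e, he⟩ := Cay.bounded hSf
  have hTact : ∀ (g : G) (a b : W), T.dist (g • a) (g • b) ≤ T.dist a b := by
    intro g a b
    obtain ⟨q, hq⟩ := hTc.exists_walk_length_eq_dist a b
    let φ : T →g T := ⟨fun a => g • a, fun h => hact g _ _ h⟩
    rw [← hq, ← SimpleGraph.Walk.length_map φ q]
    exact SimpleGraph.dist_le _
  -- the Lipschitz constant
  set K : ℕ := ∑ s ∈ hSf.toFinset, (T.dist p (s • p)) with hK
  have hKs : ∀ s ∈ S, T.dist p (s • p) ≤ K := fun s hs =>
    Finset.single_le_sum (f := fun s : G => T.dist p (s • p)) (fun _ _ => Nat.zero_le _)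
      (hSf.mem_toFinset.mpr hs)
  have hstep : ∀ g h : G, (Cay S).Adj g h → T.dist (g • p) (h • p) ≤ K := by
    rintro g h ⟨_, h1 | h1⟩
    · have h2 := hTact g p ((g⁻¹ * h) • p)
      rw [← mul_smul, mul_inv_cancel_left] at h2
      exact h2.trans (hKs _ h1)
    · have h2 := hTact h p ((h⁻¹ * g) • p)
      rw [← mul_smul, mul_inv_cancel_left, SimpleGraph.dist_comm] at h2
      exact h2.trans (hKs _ h1)
  have hwalk : ∀ (g h : G) (q : (Cay S).Walk g h), T.dist (g • p) (h • p) ≤ K * q.length := by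
    intro g h q
    induction q with
    | nil => simp
    | @cons a b c hadj q ih =>
      refine (hTc.dist_triangle (u := a • p) (v := b • p) (w := c • p)).trans ?_
      rw [SimpleGraph.Walk.length_cons, mul_add, mul_one, add_comm]
      exact Nat.add_le_add ih (hstep _ _ hadj)
  refine ⟨⟨K, fun g h => ?_⟩, fun ε hε => ?_⟩
  · obtain ⟨q, hq⟩ := hc.exists_walk_length_eq_dist g h
    have h1 := hwalk g h q
    rw [hq] at h1
    have h2 : (T.dist (g • p) (h • p) : ℝ) ≤ K * (Cay S).dist g h := by exact_mod_cast h1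
    have : (0 : ℝ) ≤ K := by positivity
    linarith
  · obtain ⟨C, hC⟩ := hgrow (ε / 2) (by positivity)
    refine ⟨C, fun x z r => ?_⟩
    obtain ⟨s, _, hs⟩ := Pool.Agent.H954R3.TL.ball_cover hc e he x r
    have hfin : {x' | (Cay S).dist x x' ≤ r ∧ x' • p = z}.Finite :=
      s.finite_toSet.subset (fun y' hy' => hs y' hy'.1)
    refine ⟨hfin, ?_⟩
    obtain ⟨s1, _, hs1⟩ := Pool.Agent.H954R3.TL.ball_cover hc e he 1 (2 * r)
    have hfin1 : {g | g • p = p ∧ (Cay S).dist 1 g ≤ (2 * r : ℕ)}.Finite :=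
      s1.finite_toSet.subset (fun y' hy' => hs1 y' hy'.2)
    have hC0 : ∀ r : ℕ, (0 : ℝ) ≤ C * Real.exp (ε / 2 * r) := fun r =>
      le_trans (by positivity) (hC r)
    rcases Set.eq_empty_or_nonempty {x' | (Cay S).dist x x' ≤ r ∧ x' • p = z} with h0 | ⟨x0, h0⟩
    · rw [h0, Set.ncard_empty]
      have hC1 : 0 ≤ C := by
        have := hC0 0
        simpa using this
      simpa using mul_nonneg hC1 (Real.exp_pos (ε * r)).le
    · have hmaps : ∀ x' ∈ {x' | (Cay S).dist x x' ≤ r ∧ x' • p = z},
          x0⁻¹ * x' ∈ {g | g • p = p ∧ (Cay S).dist 1 g ≤ (2 * r : ℕ)} := by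
        rintro x' ⟨h1, h2⟩
        refine ⟨?_, ?_⟩
        · rw [mul_smul, h2, ← h0.2, inv_smul_smul]
        · have h3 := Cay.dist_mul_le hS x0⁻¹ x0 x'
          rw [inv_mul_cancel] at h3
          have h4 := hc.dist_triangle (u := x0) (v := x) (w := x')
          have h5 : (Cay S).dist x0 x ≤ r := by rw [SimpleGraph.dist_comm]; exact h0.1
          omega
      have h1 := Set.ncard_le_ncard_of_injOn (fun x' => x0⁻¹ * x') hmaps
        (fun a _ b _ h => mul_left_cancel h) hfin1
      have h2 := hC (2 * r)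
      have h3 : C * Real.exp (ε / 2 * ((2 * r : ℕ) : ℝ)) = C * Real.exp (ε * r) := by
        congr 2
        push_cast
        ring
      rw [h3] at h2
      exact le_trans (by exact_mod_cast h1) h2

end Pool.Agent.Y343.SE
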