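import Pool.Agent.H954R3.TreeLem
import Pool.Agent.H954R3.Core
import Pool.Agent.Results.MP_7da865_gt.NoRegularMap

/-!
# Subexponential maps

A map between discrete metric spaces is subexponential if it is coarsely Lipschitz and the parts
of its point preimages in balls of radius `r` have at most `C_ε e^{ε r}` elements.
-/

set_option autoImplicit false

namespace Pool.Agent.Y343.SE

open Pool.Agent.Results.MP_7da865_gt.NoRegularMap UpperHalfPlane

universe u v w

/-- `f` is coarsely Lipschitz, and its point preimages have uniformly subexponential growth: for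
every `ε > 0` there is `C` such that for all `x`, `z`, `r` at most `C e^{ε r}` points `x'` with
`d(x,x') ≤ r` are mapped to `z`. -/
def IsSubexpMap {X : Type u} {Z : Type v} (dX : X → X → ℕ) (dZ : Z → Z → ℕ) (f : X → Z) : Prop :=
  (∃ κ : ℝ, ∀ x x', (dZ (f x) (f x') : ℝ) ≤ κ * dX x x' + κ) ∧
    ∀ ε : ℝ, 0 < ε → ∃ C : ℝ, ∀ (x : X) (z : Z) (r : ℕ),
      {x' | dX x x' ≤ r ∧ f x' = z}.Finite ∧
        ({x' | dX x x' ≤ r ∧ f x' = z}.ncard : ℝ) ≤ C * Real.exp (ε * r)

variable {X : Type u} {Y : Type v} {Z : Type w} {dX : X → X → ℕ} {dY : Y → Y → ℕ}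
  {dZ : Z → Z → ℕ}

lemma IsSubexpMap.lip {f : X → Z} (h : IsSubexpMap dX dZ f) :
    ∃ K : ℕ, ∀ x x', dZ (f x) (f x') ≤ K * (dX x x' + 1) := by
  obtain ⟨κ, hκ⟩ := h.1
  obtain ⟨K, hK⟩ := exists_nat_ge κ
  refine ⟨K, fun x x' => ?_⟩
  have h1 := hκ x x'
  have h2 : κ * dX x x' + κ ≤ K * (dX x x' + 1) := by
    have : (0 : ℝ) ≤ dX x x' := by positivity
    nlinarith
  exact_mod_cast h1.trans h2

lemma IsSubexpMap.comp {f : X → Y} {g : Y → Z} (hf : IsSubexpMap dX dY f)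
    (hg : IsSubexpMap dY dZ g) : IsSubexpMap dX dZ (g ∘ f) := by
  obtain ⟨K, hK⟩ := hf.lip
  obtain ⟨L, hL⟩ := hg.lip
  refine ⟨⟨(L : ℝ) * (K + 1), fun x x' => ?_⟩, ?_⟩
  · have h1 : dZ (g (f x)) (g (f x')) ≤ L * (K * (dX x x' + 1) + 1) :=
      (hL _ _).trans (Nat.mul_le_mul_left _ (Nat.add_le_add_right (hK _ _) 1))
    have h2 : L * (K * (dX x x' + 1) + 1) ≤ L * ((K + 1) * (dX x x' + 1)) := by
      apply Nat.mul_le_mul_left
      nlinarith
    have h3 : (dZ (g (f x)) (g (f x')) : ℝ) ≤ ((L * ((K + 1) * (dX x x' + 1)) : ℕ) : ℝ) := by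
      exact_mod_cast h1.trans h2
    refine h3.trans (le_of_eq ?_)
    push_cast
    ring
  · intro ε hε
    obtain ⟨C1, hC1⟩ := hf.2 (ε / 2) (by positivity)
    obtain ⟨C2, hC2⟩ := hg.2 (ε / (2 * (K + 1))) (by positivity)
    refine ⟨max C1 0 * (max C2 0 * Real.exp (ε / 2)), fun x z r => ?_⟩
    set R := K * (r + 1) with hR
    set S := {y | dY (f x) y ≤ R ∧ g y = z} with hS
    have hSf : S.Finite := (hC2 (f x) z R).1
    have hsub : {x' | dX x x' ≤ r ∧ (g ∘ f) x' = z} ⊆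
        ⋃ y ∈ hSf.toFinset, {x' | dX x x' ≤ r ∧ f x' = y} := by
      rintro x' ⟨h1, h2⟩
      simp only [Set.mem_iUnion]
      refine ⟨f x', ?_, h1, rfl⟩
      rw [Set.Finite.mem_toFinset]
      refine ⟨(hK x x').trans ?_, h2⟩
      exact Nat.mul_le_mul_left _ (Nat.add_le_add_right h1 1)
    have hUf : (⋃ y ∈ hSf.toFinset, {x' | dX x x' ≤ r ∧ f x' = y}).Finite := by
      apply Set.Finite.biUnion (Finset.finite_toSet _)
      intro y _
      exact (hC1 x y r).1
    refine ⟨hUf.subset hsub, ?_⟩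
    have h1 : ({x' | dX x x' ≤ r ∧ (g ∘ f) x' = z}.ncard : ℝ) ≤
        ∑ y ∈ hSf.toFinset, ({x' | dX x x' ≤ r ∧ f x' = y}.ncard : ℝ) := by
      have h2 := (Set.ncard_le_ncard hsub hUf).trans
        (Finset.set_ncard_biUnion_le hSf.toFinset (fun y => {x' | dX x x' ≤ r ∧ f x' = y}))
      exact_mod_cast h2
    have h2 : ∀ y ∈ hSf.toFinset, ({x' | dX x x' ≤ r ∧ f x' = y}.ncard : ℝ) ≤
        max C1 0 * Real.exp (ε / 2 * r) := fun y _ =>
      (hC1 x y r).2.trans (mul_le_mul_of_nonneg_right (le_max_left _ _) (Real.exp_pos _).le)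
    have h3 : (hSf.toFinset.card : ℝ) ≤ max C2 0 * Real.exp (ε / 2 * (r + 1)) := by
      have h4 := (hC2 (f x) z R).2
      rw [← hS, Set.ncard_eq_toFinset_card _ hSf] at h4
      refine h4.trans ?_
      refine (mul_le_mul_of_nonneg_right (le_max_left C2 0) (Real.exp_pos _).le).trans ?_
      apply mul_le_mul_of_nonneg_left _ (le_max_right _ _)
      apply Real.exp_le_exp.mpr
      have h5 : ε / (2 * (K + 1)) * (R : ℝ) ≤ ε / (2 * (K + 1)) * ((K + 1) * (r + 1)) := by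
        apply mul_le_mul_of_nonneg_left _ (by positivity)
        rw [hR]; push_cast
        have : (0 : ℝ) ≤ (r : ℝ) := by positivity
        nlinarith
      refine h5.trans (le_of_eq ?_)
      field_simp
    calc ({x' | dX x x' ≤ r ∧ (g ∘ f) x' = z}.ncard : ℝ)
        ≤ ∑ y ∈ hSf.toFinset, ({x' | dX x x' ≤ r ∧ f x' = y}.ncard : ℝ) := h1
      _ ≤ ∑ y ∈ hSf.toFinset, max C1 0 * Real.exp (ε / 2 * r) := Finset.sum_le_sum h2
      _ = hSf.toFinset.card * (max C1 0 * Real.exp (ε / 2 * r)) := by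
          rw [Finset.sum_const, nsmul_eq_mul]
      _ ≤ (max C2 0 * Real.exp (ε / 2 * (r + 1))) * (max C1 0 * Real.exp (ε / 2 * r)) := by
          apply mul_le_mul_of_nonneg_right h3
          exact mul_nonneg (le_max_right _ _) (Real.exp_pos _).le
      _ = max C1 0 * (max C2 0 * Real.exp (ε / 2)) * Real.exp (ε * r) := by
          have e : Real.exp (ε / 2 * (r + 1)) * Real.exp (ε / 2 * r)
              = Real.exp (ε / 2) * Real.exp (ε * r) := by
            rw [← Real.exp_add, ← Real.exp_add]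
            congr 1
            ring
          calc _ = max C1 0 * max C2 0 *
                (Real.exp (ε / 2 * (r + 1)) * Real.exp (ε / 2 * r)) := by ring
            _ = _ := by rw [e]; ring

lemma IsSubexpMap.of_regular {f : X → Z} (h : IsRegularMap dX dZ f) : IsSubexpMap dX dZ f := by
  obtain ⟨κ, hκ, h1, h2⟩ := h
  refine ⟨⟨κ, h1⟩, fun ε hε => ⟨κ, fun x z r => ?_⟩⟩
  have hsub : {x' | dX x x' ≤ r ∧ f x' = z} ⊆ f ⁻¹' {z} := fun x' hx' => hx'.2
  refine ⟨(h2 z).1.subset hsub, ?_⟩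
  have h3 : ({x' | dX x x' ≤ r ∧ f x' = z}.ncard : ℝ) ≤ (f ⁻¹' {z}).ncard := by
    exact_mod_cast Set.ncard_le_ncard hsub (h2 z).1
  have h4 : (1 : ℝ) ≤ Real.exp (ε * r) := Real.one_le_exp (by positivity)
  nlinarith [h3.trans (h2 z).2]

lemma IsSubexpMap.fst {W U : Type*} (T : SimpleGraph W) (G : SimpleGraph U) (hG : G.Connected)
    (hGdeg : BoundedDegree G) (hGg : SubexponentialGrowth G) :
    IsSubexpMap (prodDist T G) T.dist Prod.fst := by
  obtain ⟨e, he⟩ := hGdeg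
  refine ⟨⟨1, fun x x' => ?_⟩, fun ε hε => ?_⟩
  · have : T.dist x.1 x'.1 ≤ prodDist T G x x' := Nat.le_add_right _ _
    have h2 : (T.dist x.1 x'.1 : ℝ) ≤ prodDist T G x x' := by exact_mod_cast this
    linarith
  · obtain ⟨C, hC⟩ := hGg ε hε
    refine ⟨C, fun x z r => ?_⟩
    obtain ⟨s, _, hs⟩ := Pool.Agent.H954R3.TL.ball_cover hG e he x.2 r
    have hfin : {y' | G.dist x.2 y' ≤ r}.Finite := s.finite_toSet.subset (fun y' hy' => hs y' hy')
    have hmaps : ∀ q ∈ {x' | prodDist T G x x' ≤ r ∧ x'.1 = z}, q.2 ∈ {y' | G.dist x.2 y' ≤ r} := by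
      rintro q ⟨h1, _⟩
      exact (Nat.le_add_left _ _).trans h1
    have hinj : Set.InjOn (fun q : W × U => q.2) {x' | prodDist T G x x' ≤ r ∧ x'.1 = z} := by
      rintro p ⟨_, h1⟩ q ⟨_, h2⟩ h3
      exact Prod.ext (h1.trans h2.symm) h3
    refine ⟨Set.Finite.of_finite_image (hfin.subset ?_) hinj, ?_⟩
    · rintro _ ⟨q, hq, rfl⟩
      exact hmaps q hq
    · have h1 := Set.ncard_le_ncard_of_injOn (fun q : W × U => q.2) hmaps hinj hfin
      refine le_trans ?_ (hC x.2 r)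
      exact_mod_cast h1

end Pool.Agent.Y343.SE
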