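import Pool.Agent.Y343.SE.Sub

/-!
# There is no subexponential map from the hyperbolic plane to a tree of bounded degree
-/

set_option autoImplicit false

namespace Pool.Agent.Y343.SE

open Pool.Agent.Results.MP_7da865_gt.NoRegularMap UpperHalfPlane

universe u v w

/-- Every coarsely Lipschitz map from a graph quasi-isometric to the hyperbolic plane to a tree of
bounded degree has point preimages of exponential growth. -/
theorem no_map {V : Type u} {W : Type v} (X : SimpleGraph V) (T : SimpleGraph W)
    (hXc : X.Connected) (hXH : QuasiIsometricToH2 X) (hT : T.IsTree) (hTdeg : BoundedDegree T)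
    (F : V → W) : ¬ IsSubexpMap X.dist T.dist F := by
  classical
  intro hF
  obtain ⟨K, hK⟩ := hF.lip
  obtain ⟨φ, L, C, hL, hC, hφ, hsurj⟩ := hXH
  obtain ⟨d, hd⟩ := hTdeg
  choose x hx using fun t i => hsurj (pt t i)
  have hLpos : 0 < L := by linarith
  have hlog : 0 ≤ Real.log 3 := Real.log_nonneg (by norm_num)
  obtain ⟨D, hD⟩ := exists_nat_ge (L * (Real.log 3 + 3 * C))
  -- distances of neighbours
  have hX1 : ∀ t i s j, dist (pt t i) (pt s j) ≤ Real.log 3 → X.dist (x t i) (x s j) ≤ D := by
    intro t i s j h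
    have h1 := (hφ (x t i) (x s j)).1
    have h2 : dist (φ (x t i)) (φ (x s j)) ≤ C + Real.log 3 + C := by
      calc _ ≤ dist (φ (x t i)) (pt t i) + dist (pt t i) (pt s j) + dist (pt s j) (φ (x s j)) :=
            dist_triangle4 _ _ _ _
        _ ≤ _ := by
            have := hx s j
            rw [dist_comm] at this
            exact add_le_add (add_le_add (hx t i) h) this
    have h3 : L⁻¹ * X.dist (x t i) (x s j) ≤ Real.log 3 + 3 * C := by linarith
    rw [inv_mul_le_iff₀ hLpos] at h3
    exact_mod_cast h3.trans hD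
  set lam := K * (D + 1) with hlam
  have hF1 : ∀ t i s j, dist (pt t i) (pt s j) ≤ Real.log 3 →
      T.dist (F (x t i)) (F (x s j)) ≤ lam := fun t i s j h =>
    (hK _ _).trans (Nat.mul_le_mul_left _ (Nat.add_le_add_right (hX1 t i s j h) 1))
  -- multiplicities
  obtain ⟨B, hB⟩ := exists_nat_ge (2 * Real.cosh (2 * C))
  have hB1 : ∀ t i j, x t i = x t j → i ≤ j → j - i ≤ B := by
    intro t i j hij hle
    have h1 : dist (pt t i) (pt t j) ≤ 2 * C := by
      calc _ ≤ dist (pt t i) (φ (x t i)) + dist (φ (x t i)) (pt t j) := dist_triangle _ _ _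
        _ ≤ C + C := by
            have h2 := hx t i
            rw [dist_comm] at h2
            have h3 := hx t j
            rw [← hij] at h3
            exact add_le_add h2 h3
        _ = 2 * C := by ring
    have h2 : Real.cosh (dist (pt t i) (pt t j)) ≤ Real.cosh (2 * C) := by
      rw [Real.cosh_le_cosh, abs_of_nonneg dist_nonneg, abs_of_nonneg (by positivity)]
      exact h1
    rw [cosh_same] at h2
    have h3 : ((i : ℝ) - j) ^ 2 ≤ 2 * Real.cosh (2 * C) := by linarith
    have h4 : (((j - i : ℕ) : ℝ)) ^ 2 ≤ B := by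
      rw [Nat.cast_sub hle]
      nlinarith
    have h5 : (j - i) ^ 2 ≤ B := by exact_mod_cast h4
    nlinarith [Nat.le_self_pow (n := 2) (by norm_num) (j - i)]
  have hmult : ∀ (S : Finset ℕ) (t : ℕ) (z : V), (∀ m ∈ S, x t m = z) → S.card ≤ B + 1 :=
    fun S t z h => card_le_of_diff S B (fun a ha b hb hab =>
      hB1 t a b ((h a ha).trans (h b hb).symm) hab)
  refine Pool.Agent.H954R3.Core.core (T := T) (g := fun t i => F (x t i)) (lam := lam) hT d hd
    (fun t m => hF1 t (m / 2) (t + 1) m (vert t m)) (fun t i => hF1 t i t (i + 1) (hor t i)) ?_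
  intro a ha
  have hla : 0 < Real.log a := Real.log_pos ha
  obtain ⟨C', hC'⟩ := hF.2 (Real.log a / (D + 1)) (by positivity)
  refine ⟨(B + 1) * max C' 0, fun t i l u => ?_⟩
  set A := {x' | X.dist (x t i) x' ≤ D * l ∧ F x' = u} with hA
  have hAf : A.Finite := (hC' (x t i) u (D * l)).1
  have hpath := Pool.Agent.H954R3.Core.path_dist (T := X) (g := x) (lam := D) hXc
    (fun t m => hX1 t (m / 2) (t + 1) m (vert t m)) l
  have h1 : ((Pool.Agent.H954R3.Core.desc l i).filter (fun m => F (x (t + l) m) = u)).card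
      ≤ (B + 1) * hAf.toFinset.card := by
    apply Finset.card_le_mul_card_image_of_maps_to (f := fun m => x (t + l) m)
    · intro m hm
      rw [Finset.mem_filter, Pool.Agent.H954R3.Core.mem_desc] at hm
      rw [Set.Finite.mem_toFinset]
      have h2 := hpath t m
      rw [hm.1] at h2
      exact ⟨h2, hm.2⟩
    · intro y _
      apply hmult _ (t + l) y
      intro m hm
      rw [Finset.mem_filter] at hm
      exact hm.2
  have h2 : Nat.card {m // m ∈ Pool.Agent.H954R3.Core.desc l i ∧ F (x (t + l) m) = u}
      = ((Pool.Agent.H954R3.Core.desc l i).filter (fun m => F (x (t + l) m) = u)).card := by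
    rw [← Nat.card_eq_finsetCard]
    apply Nat.card_congr
    exact Equiv.subtypeEquivRight (fun m => by simp)
  show (Nat.card {m // m ∈ Pool.Agent.H954R3.Core.desc l i ∧ F (x (t + l) m) = u} : ℝ) ≤ _
  rw [h2]
  have h3 := (hC' (x t i) u (D * l)).2
  rw [← hA, Set.ncard_eq_toFinset_card _ hAf] at h3
  have h4 : Real.exp (Real.log a / (D + 1) * ((D * l : ℕ) : ℝ)) ≤ a ^ l := by
    rw [← Real.exp_log (show (0 : ℝ) < a by linarith), ← Real.exp_nat_mul, Real.log_exp]
    apply Real.exp_le_exp.mpr
    push_cast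
    rw [div_mul_eq_mul_div, div_le_iff₀ (by positivity)]
    have : (0 : ℝ) ≤ Real.log a * l := by positivity
    nlinarith
  calc (((Pool.Agent.H954R3.Core.desc l i).filter (fun m => F (x (t + l) m) = u)).card : ℝ)
      ≤ (B + 1) * hAf.toFinset.card := by exact_mod_cast h1
    _ ≤ (B + 1) * (max C' 0 * a ^ l) := by
        apply mul_le_mul_of_nonneg_left _ (by positivity)
        refine h3.trans ?_
        exact mul_le_mul (le_max_left _ _) h4 (Real.exp_pos _).le (le_max_right _ _)
    _ = (B + 1) * max C' 0 * a ^ l := by ring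

end Pool.Agent.Y343.SE
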